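import Pool.Agent.H50En.Defs

/-! B2 : Jacobi's identity for the complementary minor. -/

namespace Pool.Agent.H40En

open Real Finset Pool.Agent.H50En

theorem block_det {m n R : Type*} [Fintype m] [Fintype n] [DecidableEq m] [DecidableEq n]
    [CommRing R] (M N : Matrix (m ⊕ n) (m ⊕ n) R) (h : M * N = 1) :
    M.det * N.toBlocks₂₂.det = M.toBlocks₁₁.det := by
  have h1 : M * Matrix.fromBlocks 1 N.toBlocks₁₂ 0 N.toBlocks₂₂ =
      Matrix.fromBlocks M.toBlocks₁₁ 0 M.toBlocks₂₁ 1 := by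
    have h2 : Matrix.fromBlocks M.toBlocks₁₁ M.toBlocks₁₂ M.toBlocks₂₁ M.toBlocks₂₂ *
        Matrix.fromBlocks N.toBlocks₁₁ N.toBlocks₁₂ N.toBlocks₂₁ N.toBlocks₂₂ =
        Matrix.fromBlocks 1 0 0 1 := by
      rw [Matrix.fromBlocks_toBlocks, Matrix.fromBlocks_toBlocks, h, Matrix.fromBlocks_one]
    rw [Matrix.fromBlocks_multiply, Matrix.fromBlocks_inj] at h2
    conv_lhs => rw [← Matrix.fromBlocks_toBlocks M]
    rw [Matrix.fromBlocks_multiply]
    rw [Matrix.fromBlocks_inj]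
    exact ⟨by simp, h2.2.1, by simp, h2.2.2.2⟩
  have h3 := congrArg Matrix.det h1
  rw [Matrix.det_mul, Matrix.det_fromBlocks_zero₂₁, Matrix.det_fromBlocks_zero₁₂] at h3
  simpa using h3

variable {V : Type} [DecidableEq V]

/-- The splitting of the index set. -/
def spl {T : Finset V} {k l : V} (hk : k ∈ T) (hl : l ∈ T) :
    Option ((T.erase k).erase l : Finset V) ⊕ Fin 2 → Option T
  | Sum.inl none => none
  | Sum.inl (some i) => some ⟨i.1, Finset.mem_of_mem_erase (Finset.mem_of_mem_erase i.2)⟩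
  | Sum.inr 0 => some ⟨k, hk⟩
  | Sum.inr 1 => some ⟨l, hl⟩

theorem spl_bij {T : Finset V} {k l : V} (hk : k ∈ T) (hl : l ∈ T) (hkl : k ≠ l) :
    Function.Bijective (spl hk hl) := by
  constructor
  · rintro ((_ | ⟨i, hi⟩) | i) ((_ | ⟨j, hj⟩) | j) h
    · rfl
    · simp [spl] at h
    · fin_cases j <;> simp [spl] at h
    · simp [spl] at h
    · simp [spl] at h
      subst h; rfl
    · simp only [Finset.mem_erase] at hi
      fin_cases j <;> simp [spl] at h <;> tauto
    · fin_cases i <;> simp [spl] at h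
    · simp only [Finset.mem_erase] at hj
      fin_cases i <;> simp [spl] at h <;> subst h <;> tauto
    · fin_cases i <;> fin_cases j <;> simp [spl] at h ⊢ <;> first | exact hkl h | exact hkl h.symm
  · rintro (_ | ⟨i, hi⟩)
    · exact ⟨Sum.inl none, rfl⟩
    · by_cases h1 : i = k
      · exact ⟨Sum.inr 0, by subst h1; rfl⟩
      by_cases h2 : i = l
      · exact ⟨Sum.inr 1, by subst h2; rfl⟩
      exact ⟨Sum.inl (some ⟨i, Finset.mem_erase.mpr ⟨h2, Finset.mem_erase.mpr ⟨h1, hi⟩⟩⟩), rfl⟩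

theorem CM_symm (z : Sym2 V → ℝ) (s : Finset V) : (CM z s).transpose = CM z s := by
  ext a b
  rcases a with _ | a <;> rcases b with _ | b <;> simp [CM, Matrix.transpose_apply]
  by_cases h : a = b
  · simp [h]
  · rw [if_neg h, if_neg (Ne.symm h), Sym2.eq_swap]

theorem Q_symm (z : Sym2 V → ℝ) (s : Finset V) (k l : V) : Q z s k l = Q z s l k := by
  unfold Q
  by_cases h : k ∈ s ∧ l ∈ s
  · rw [dif_pos h, dif_pos h.symm]
    have h1 : ((CM z s)⁻¹).transpose = (CM z s)⁻¹ := by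
      rw [Matrix.transpose_nonsing_inv, CM_symm]
    conv_lhs => rw [← h1]
    rfl
  · rw [dif_neg h, dif_neg (fun h' => h h'.symm)]

theorem jacobi {z : Sym2 V → ℝ} {T : Finset V} (hD : (CM z T).det ≠ 0) {k l : V} (hk : k ∈ T)
    (hl : l ∈ T) (hkl : k ≠ l) :
    |(CM z ((T.erase k).erase l)).det| = |(CM z T).det| * |Q z T k k * Q z T l l - Q z T k l ^ 2| := by
  have hu : IsUnit (CM z T).det := isUnit_iff_ne_zero.mpr hD
  let e := Equiv.ofBijective _ (spl_bij hk hl hkl)
  have h1 : (CM z T).submatrix e e * ((CM z T)⁻¹).submatrix e e = 1 := by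
    rw [Matrix.submatrix_mul_equiv, Matrix.mul_nonsing_inv _ hu, Matrix.submatrix_one_equiv]
  have h2 := block_det _ _ h1
  rw [Matrix.det_submatrix_equiv_self] at h2
  have h3 : ((CM z T).submatrix e e).toBlocks₁₁ = CM z ((T.erase k).erase l) := by
    ext a b
    rcases a with _ | ⟨a, ha⟩ <;> rcases b with _ | ⟨b, hb⟩ <;>
      simp [CM, Matrix.toBlocks₁₁, e, spl]
  have h4 : (((CM z T)⁻¹).submatrix e e).toBlocks₂₂ = !![Q z T k k, Q z T k l; Q z T l k, Q z T l l] := by
    ext a b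
    fin_cases a <;> fin_cases b <;> simp [Q, hk, hl, Matrix.toBlocks₂₂, e, spl]
  rw [h3, h4, Matrix.det_fin_two_of] at h2
  rw [← h2, abs_mul, Q_symm z T l k, sq]

end Pool.Agent.H40En
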