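import Pool.Agent.H50En.Defs

/-! R3 : angles from the Gram form of the inverse Cayley–Menger matrix. -/

namespace Pool.Agent.H40En

open Real Finset Pool.Agent.H50En InnerProductGeometry

variable {E : Type*} [NormedAddCommGroup E] [InnerProductSpace ℝ E]

/-- Old faces. -/
theorem angle_two {u : E} (hu : u ≠ 0) (v : E) :
    (π - angle u (v - u)) + (π - angle v (u - v)) = π - angle u v := by
  have h := angle_add_angle_sub_add_angle_sub_eq_pi v hu
  have h1 : angle u (v - u) = π - angle u (u - v) := by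
    rw [← neg_sub u v, angle_neg_right]
  have h2 : angle v (u - v) = π - angle v (v - u) := by
    rw [← neg_sub v u, angle_neg_right]
  rw [angle_comm v u] at h
  linarith

/-- New faces. -/
theorem angle_three {u v w : E} (huw : u ≠ w) :
    (π - angle (v - u) (w - u)) + (π - angle (u - v) (w - v)) + (π - angle (u - w) (v - w)) =
      2 * π := by
  have h := angle_add_angle_sub_add_angle_sub_eq_pi (v - w) (sub_ne_zero.mpr huw)
  rw [sub_sub_sub_cancel_right, sub_sub_sub_cancel_right] at h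
  have h1 : angle (v - u) (w - u) = angle (u - w) (u - v) := by
    rw [← neg_sub u v, ← neg_sub u w, angle_neg_neg, angle_comm]
  have h2 : angle (u - v) (w - v) = angle (v - w) (v - u) := by
    rw [← neg_sub v u, ← neg_sub v w, angle_neg_neg, angle_comm]
  rw [angle_comm (v - w) (u - w)] at h
  linarith

theorem angle_two_scaled {u : E} (hu : u ≠ 0) (v : E) {c : ℝ} (hc : 0 < c) :
    (π - angle (c • u) (v - u)) + (π - angle (c • v) (u - v)) = π - angle u v := by
  rw [angle_smul_left_of_pos _ _ hc, angle_smul_left_of_pos _ _ hc]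
  exact angle_two hu v

variable {V : Type} [DecidableEq V]

theorem ang_eq {z : Sym2 V → ℝ} {T : Finset V} {g : V → E}
    (hQ : ∀ k ∈ T, ∀ l ∈ T, Q z T k l = -(1 / 2) * inner ℝ (g k) (g l)) {k l : V} (hk : k ∈ T)
    (hl : l ∈ T) : ang z T k l = π - angle (g k) (g l) := by
  unfold ang angle
  rw [hQ k hk l hl, hQ k hk k hk, hQ l hl l hl, real_inner_self_eq_norm_sq,
    real_inner_self_eq_norm_sq, ← Real.arccos_neg]
  congr 1
  have h1 : -(1 / 2) * ‖g k‖ ^ 2 * (-(1 / 2) * ‖g l‖ ^ 2) = (‖g k‖ * ‖g l‖ / 2) ^ 2 := by ring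
  rw [h1, Real.sqrt_sq (by positivity)]
  by_cases h : ‖g k‖ * ‖g l‖ = 0
  · rw [h]; simp
  · field_simp

theorem Q_diag_neg {z : Sym2 V → ℝ} {T : Finset V} {g : V → E}
    (hQ : ∀ k ∈ T, ∀ l ∈ T, Q z T k l = -(1 / 2) * inner ℝ (g k) (g l)) {k : V} (hk : k ∈ T)
    (h0 : g k ≠ 0) : Q z T k k < 0 := by
  rw [hQ k hk k hk, real_inner_self_eq_norm_sq]
  have := norm_pos_iff.mpr h0
  nlinarith [sq_pos_of_pos this]

theorem Q_minor_pos {z : Sym2 V → ℝ} {T : Finset V} {g : V → E}
    (hQ : ∀ k ∈ T, ∀ l ∈ T, Q z T k l = -(1 / 2) * inner ℝ (g k) (g l)) {k l : V} (hk : k ∈ T)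
    (hl : l ∈ T) (hi : LinearIndependent ℝ ![g k, g l]) :
    0 < Q z T k k * Q z T l l - Q z T k l ^ 2 := by
  rw [hQ k hk k hk, hQ l hl l hl, hQ k hk l hl, real_inner_self_eq_norm_sq,
    real_inner_self_eq_norm_sq]
  have h1 : |inner ℝ (g k) (g l)| < ‖g k‖ * ‖g l‖ := by
    refine lt_of_le_of_ne (abs_real_inner_le_norm _ _) fun h => ?_
    have hk0 : g k ≠ 0 := by
      have := hi.ne_zero 0
      simpa using this
    have hl0 : g l ≠ 0 := by
      have := hi.ne_zero 1
      simpa using this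
    have h2 : |inner ℝ (g k) (g l) / (‖g k‖ * ‖g l‖)| = 1 := by
      rw [abs_div, h, abs_of_nonneg (by positivity : 0 ≤ ‖g k‖ * ‖g l‖)]
      exact div_self (by positivity)
    rw [abs_real_inner_div_norm_mul_norm_eq_one_iff] at h2
    obtain ⟨_, r, _, hr⟩ := h2
    rw [LinearIndependent.pair_iff] at hi
    have h3 := hi r (-1) (by rw [hr]; simp)
    linarith [h3.2]
  have h2 : inner ℝ (g k) (g l) ^ 2 < (‖g k‖ * ‖g l‖) ^ 2 := by
    rw [← sq_abs]
    exact pow_lt_pow_left₀ h1 (abs_nonneg _) two_ne_zero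
  nlinarith

end Pool.Agent.H40En
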